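import Pool.Agent.Q5.SH.Stm
import Pool.Agent.Q24.SG.DV
import Pool.Agent.Q299.EX.Cnt

/-!
# Project SH (helper5), job CRIT: the criterion
-/

set_option autoImplicit false

namespace Pool.Agent.Q238.SH

open NumberField IsDedekindDomain Module Pool.Agent.Y18.LC Pool.Agent.Q5.SG Pool.Agent.Q5.SH
open Pool.Agent.Q92.AR (Dv prin prin_mul prinHom Unramified)

section
variable {K : Type} [Field K] [NumberField K]

theorem prin_pow (x : Kˣ) (n : ℕ) : prin (x ^ n) = n • prin x :=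
  map_nsmul (prinHom (F := K)) n (Additive.ofMul x)

theorem apx (T : Finset (HeightOneSpectrum (𝓞 K))) (v : HeightOneSpectrum (𝓞 K)) (k : Kˣ) :
    ∃ e : Kˣ, e / k ∈ OneAt v ∧ ∀ w ∈ T, w ≠ v → e ∈ OneAt w := by
  classical
  obtain ⟨z, hz⟩ := Pool.Agent.Q299.EX.approx
    (P := ((insert v T : Finset (HeightOneSpectrum (𝓞 K))) : Set (HeightOneSpectrum (𝓞 K))))
    (Finset.finite_toSet _) (fun w => if w = v then k else 1) (fun _ => 1) (fun _ => le_rfl)
  have h1 : WithZero.exp (-((1 : ℕ) : ℤ)) < 1 := by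
    rw [← WithZero.exp_zero]
    exact WithZero.exp_lt_exp.2 (by norm_num)
  refine ⟨z, ?_, fun w hw hwv => ?_⟩
  · have h := hz v (by simp)
    rw [if_pos rfl] at h
    rw [mem_OneAt, Units.val_div_eq_div_val]
    exact h.trans_lt h1
  · have h := hz w (by simp [hw])
    rw [if_neg hwv, Units.val_one, div_one] at h
    rw [mem_OneAt]
    exact h.trans_lt h1

theorem pow_loc {p m : ℕ} (hm : 1 ≤ m) {T : Finset (HeightOneSpectrum (𝓞 K))}
    {χ : Dv K →+ Additive ℂˣ} (hX : IsX T (p ^ m) χ) (v : HeightOneSpectrum (𝓞 K)) (k : Kˣ) :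
    k ^ p ∈ Loc T (p ^ (m - 1) • χ) v := by
  obtain ⟨e, h1, h2⟩ := apx T v k
  rw [mem_Loc]
  refine ⟨e ^ p, ?_, fun w hw hwv => (OneAt w).pow_mem (h2 w hw hwv) p, ?_⟩
  · rw [← div_pow]
    exact (OneAt v).pow_mem h1 p
  · have h3 : (p ^ (m - 1) • χ) (prin (e ^ p)) = p ^ (m - 1) • χ (prin (e ^ p)) := rfl
    rw [h3, prin_pow, map_nsmul, smul_smul, ← pow_succ, Nat.sub_add_cancel hm]
    exact hX.tor _

end

theorem crit : J_CRIT := by
  intro hCA hLS hNL p _ hp2 K H _ _ _ _ _ _ hK S g hg m hm hKH T χ hX hT hNK hunr hR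
  have hH : Unram H p := Pool.Agent.Q24.SG.t_UH p K H hK
    (fun v hv => hunr v (fun hvT => hT v hvT hv))
  refine ⟨hH, fun j hj1 hjm hbad => ?_⟩
  obtain ⟨b, c, v, hv, hbc, hgc, hnorm, hgcc, hnp⟩ :=
    hCA p hp2 K H hH S g hg m j hKH hj1 hjm hbad
  obtain ⟨k, hk⟩ := hLS p hp2 K H hH S g hg b c v hv hbc hgcc
  have hmem : b * k ^ p ∈ Rg S T (p ^ (m - 1) • χ) := by
    rw [mem_Rg]
    refine ⟨⟨hk, fun w hw => ?_⟩, fun w hw => ?_⟩
    · exact (Loc T _ w).mul_mem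
        (hNL p K H g hg m j hKH hj1 hjm T χ hX hNK b c hgc hnorm w hw) (pow_loc hm hX w k)
    · obtain ⟨i, hi⟩ := Pool.Agent.Q24.SG.t_DV K H w (hunr w hw) v hv.1 b c p hbc
      rw [Pool.Agent.Q128.AR.val_prin] at hi
      have h1 : -(prin b w) = (p : ℤ) * i := WithZero.exp_injective hi
      have h2 : prin b w = (p : ℤ) * (-i) := by linarith
      rw [prin_mul, Finsupp.add_apply, prin_pow, Finsupp.smul_apply, h2]
      refine dvd_add (dvd_mul_right _ _) ?_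
      rw [nsmul_eq_mul]
      exact dvd_mul_right _ _
  obtain ⟨k', hk'⟩ := mem_PW.1 (hR hmem)
  exact hnp (k' / k) (by rw [div_pow, hk', mul_div_cancel_right])

end Pool.Agent.Q238.SH
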