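import Pool.Agent.Q238.SH.Defs

/-!
Convergence of the truncated Euler sums of admissible strings, and the sharp sum as a limit.
-/

namespace Q238.SH

open Finset Filter Topology

lemma abs_sgn (a : Entry) : |sgn a| = 1 := by
  unfold sgn
  split_ifs <;> simp

lemma abs_wt (a : Entry) (n : ℕ) : |wt a n| = 1 / (n : ℝ) ^ a.1 := by
  unfold wt
  rw [abs_div, abs_pow, abs_sgn, one_pow, abs_pow, Nat.abs_cast]

lemma abs_wt_le {a : Entry} {k : ℕ} (ha : k ≤ a.1) {n : ℕ} (hn : 1 ≤ n) :
    |wt a n| ≤ 1 / (n : ℝ) ^ k := by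
  rw [abs_wt]
  have h1 : (1 : ℝ) ≤ n := by exact_mod_cast hn
  exact one_div_le_one_div_of_le (by positivity) (pow_le_pow_right₀ h1 ha)

lemma sqrt_step (m : ℕ) : 2 * √(m : ℝ) + 1 / √((m : ℝ) + 1) ≤ 2 * √((m : ℝ) + 1) := by
  have h0 : (0 : ℝ) ≤ m := Nat.cast_nonneg m
  have h1 : 0 < √((m : ℝ) + 1) := Real.sqrt_pos.mpr (by linarith)
  have h2 : √(m : ℝ) ≤ √((m : ℝ) + 1) := Real.sqrt_le_sqrt (by linarith)
  have h3 : √((m : ℝ) + 1) ^ 2 = m + 1 := Real.sq_sqrt (by linarith)
  have h4 : √(m : ℝ) ^ 2 = m := Real.sq_sqrt h0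
  have h5 : 0 ≤ √(m : ℝ) := Real.sqrt_nonneg _
  have h6 : 1 / √((m : ℝ) + 1) = √((m : ℝ) + 1) - m / √((m : ℝ) + 1) := by
    field_simp
    linarith
  have h7 : 2 * √(m : ℝ) * √((m : ℝ) + 1) + 1 ≤ 2 * √((m : ℝ) + 1) * √((m : ℝ) + 1) := by
    nlinarith [sq_nonneg (√((m : ℝ) + 1) - √(m : ℝ))]
  rw [← mul_le_mul_iff_left₀ h1, add_mul, div_mul_cancel₀ _ h1.ne']
  exact h7

lemma sum_inv_sqrt (M : ℕ) : ∑ m ∈ Ioc 0 M, 1 / √(m : ℝ) ≤ 2 * √(M : ℝ) := by
  induction M with
  | zero => simp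
  | succ M ih =>
    rw [sum_Ioc_succ_top (Nat.zero_le M)]
    have := sqrt_step M
    push_cast
    linarith

/-- Square root growth of the truncated sums. -/
lemma trunc_bound (s : List Entry) (hs : ∀ x ∈ s, 1 ≤ x.1) (M : ℕ) :
    |trunc s 0 M| ≤ 2 ^ s.length * √((M : ℝ) + 1) := by
  induction s using List.reverseRecOn generalizing M with
  | nil =>
    simp only [trunc_nil, abs_one, List.length_nil, pow_zero, one_mul]
    rw [Real.one_le_sqrt]
    linarith [(Nat.cast_nonneg M : (0 : ℝ) ≤ M)]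
  | append_singleton s a ih =>
    have hs' : ∀ x ∈ s, 1 ≤ x.1 := fun x hx => hs x (by simp [hx])
    have ha : 1 ≤ a.1 := hs a (by simp)
    rw [trunc_append]
    calc |∑ m ∈ Ioc 0 M, wt a m * trunc s 0 (m - 1)|
        ≤ ∑ m ∈ Ioc 0 M, |wt a m * trunc s 0 (m - 1)| := abs_sum_le_sum_abs _ _
      _ ≤ ∑ m ∈ Ioc 0 M, 2 ^ s.length * (1 / √(m : ℝ)) := by
          refine sum_le_sum fun m hm => ?_
          rw [mem_Ioc] at hm
          have hm1 : 1 ≤ m := hm.1
          have hmR : (0 : ℝ) < m := by exact_mod_cast hm.1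
          rw [abs_mul]
          have h1 := abs_wt_le ha hm1
          have h2 := ih hs' (m - 1)
          have h3 : ((m - 1 : ℕ) : ℝ) + 1 = m := by
            rw [Nat.cast_sub hm1]
            push_cast
            ring
          rw [h3] at h2
          calc |wt a m| * |trunc s 0 (m - 1)| ≤ (1 / (m : ℝ) ^ 1) * (2 ^ s.length * √(m : ℝ)) :=
                mul_le_mul h1 h2 (abs_nonneg _) (by positivity)
            _ = 2 ^ s.length * (1 / √(m : ℝ)) := by
                have h4 : √(m : ℝ) * √(m : ℝ) = m := Real.mul_self_sqrt hmR.le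
                have h5 : 0 < √(m : ℝ) := Real.sqrt_pos.mpr hmR
                rw [pow_one]
                field_simp
                nlinarith
      _ = 2 ^ s.length * ∑ m ∈ Ioc 0 M, 1 / √(m : ℝ) := by rw [mul_sum]
      _ ≤ 2 ^ s.length * (2 * √(M : ℝ)) := by
          exact mul_le_mul_of_nonneg_left (sum_inv_sqrt M) (by positivity)
      _ ≤ 2 ^ (s ++ [a]).length * √((M : ℝ) + 1) := by
          rw [List.length_append, List.length_singleton, pow_succ]
          have : √(M : ℝ) ≤ √((M : ℝ) + 1) := Real.sqrt_le_sqrt (by linarith)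
          have h2 : (0 : ℝ) ≤ 2 ^ s.length := by positivity
          nlinarith [mul_le_mul_of_nonneg_left this h2]

/-- A string is admissible when its entries are positive and the last one is at least `2`. -/
def Adm (t : List Entry) : Prop :=
  (∀ x ∈ t, 1 ≤ x.1) ∧ ∃ s a, t = s ++ [a] ∧ 2 ≤ a.1

lemma adm_single {a : Entry} (h : 2 ≤ a.1) : Adm [a] :=
  ⟨by intro x hx; simp only [List.mem_singleton] at hx; subst hx; omega, [], a, by simp, h⟩

lemma adm_cons {a : Entry} {t : List Entry} (ha : 1 ≤ a.1) (ht : Adm t) : Adm (a :: t) := by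
  obtain ⟨h1, s, b, h2, h3⟩ := ht
  refine ⟨?_, a :: s, b, by rw [h2]; simp, h3⟩
  intro x hx
  rcases List.mem_cons.mp hx with h | h
  · subst h
    exact ha
  · exact h1 x h

lemma adm_tail {a b : Entry} {s : List Entry} (h : Adm (a :: b :: s)) : Adm (b :: s) := by
  obtain ⟨h1, u, c, h2, h3⟩ := h
  refine ⟨fun x hx => h1 x (by simp only [List.mem_cons] at hx ⊢; tauto), ?_⟩
  cases u with
  | nil => simp at h2
  | cons d u =>
    simp only [List.cons_append, List.cons.injEq] at h2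
    exact ⟨u, c, h2.2, h3⟩

lemma adm_oplus {a b : Entry} {s : List Entry} (h : Adm (a :: b :: s)) :
    Adm (oplus a b :: s) := by
  have ha : 1 ≤ a.1 := h.1 a (by simp)
  have hb : 1 ≤ b.1 := h.1 b (by simp)
  have hab : 2 ≤ (oplus a b).1 := by
    change 2 ≤ a.1 + b.1
    omega
  cases s with
  | nil => exact adm_single hab
  | cons c s =>
    exact adm_cons (by omega) (adm_tail (adm_tail h))

lemma adm_strings (s : List Entry) (a : Entry) (h : Adm (a :: s)) :
    ∀ t ∈ stringsFrom a s, Adm t := by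
  induction s generalizing a with
  | nil =>
    intro t ht
    simp only [stringsFrom, List.mem_singleton] at ht
    rw [ht]
    exact h
  | cons b s ih =>
    intro t ht
    simp only [stringsFrom, List.mem_append, List.mem_map] at ht
    rcases ht with ⟨u, hu, rfl⟩ | ht
    · exact adm_cons (h.1 a (by simp)) (ih b (adm_tail h) u hu)
    · exact ih _ (adm_oplus h) t ht

lemma summable_rpow32 : Summable (fun m : ℕ => 1 / (m : ℝ) ^ (3 / 2 : ℝ)) :=
  Real.summable_one_div_nat_rpow.mpr (by norm_num)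

/-- Limits of sums over `Ioc 0 M` of an absolutely convergent series. -/
lemma tendsto_Ioc {f : ℕ → ℝ} (hf : Summable f) (h0 : f 0 = 0) :
    Tendsto (fun M : ℕ => ∑ m ∈ Ioc 0 M, f m) atTop (𝓝 (∑' m, f m)) := by
  have h1 := hf.hasSum.tendsto_sum_nat
  have h2 := h1.comp (tendsto_add_atTop_nat 1)
  refine h2.congr fun M => ?_
  simp only [Function.comp]
  rw [range_eq_Ico, Finset.sum_eq_sum_Ico_succ_bot (Nat.succ_pos M), h0, zero_add]
  refine sum_congr ?_ fun _ _ => rfl
  ext k
  simp only [mem_Ico, mem_Ioc]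
  omega

lemma pow_sqrt (m : ℕ) (hm : 1 ≤ m) :
    1 / (m : ℝ) ^ 2 * √(m : ℝ) = 1 / (m : ℝ) ^ (3 / 2 : ℝ) := by
  have hmR : (0 : ℝ) < m := by exact_mod_cast hm
  have h1 : (m : ℝ) ^ (3 / 2 : ℝ) * √(m : ℝ) = (m : ℝ) ^ 2 := by
    rw [Real.sqrt_eq_rpow, ← Real.rpow_add hmR]
    norm_num
  have h2 : 0 < √(m : ℝ) := Real.sqrt_pos.mpr hmR
  have h3 : 0 < (m : ℝ) ^ (3 / 2 : ℝ) := by positivity
  rw [← h1]
  field_simp

/-- The truncated sums of an admissible string converge to its Euler sum. -/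
lemma tendsto_euler {t : List Entry} (ht : Adm t) :
    Tendsto (fun M : ℕ => trunc t 0 M) atTop (𝓝 (euler t)) := by
  obtain ⟨h1, s, a, h2, h3⟩ := ht
  have hs : ∀ x ∈ s, 1 ≤ x.1 := fun x hx => h1 x (by rw [h2]; simp [hx])
  have hsum : Summable (fun m : ℕ => wt a m * trunc s 0 (m - 1)) := by
    refine Summable.of_norm_bounded (summable_rpow32.mul_left (2 ^ s.length : ℝ)) fun m => ?_
    rcases Nat.eq_zero_or_pos m with h | h
    · subst h
      rw [Real.norm_eq_abs, abs_mul, abs_wt]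
      have : a.1 ≠ 0 := by omega
      simp [this]
    · rw [Real.norm_eq_abs, abs_mul]
      have e1 := abs_wt_le h3 h
      have e2 := trunc_bound s hs (m - 1)
      have e3 : ((m - 1 : ℕ) : ℝ) + 1 = m := by
        rw [Nat.cast_sub h]
        push_cast
        ring
      rw [e3] at e2
      calc |wt a m| * |trunc s 0 (m - 1)| ≤ (1 / (m : ℝ) ^ 2) * (2 ^ s.length * √(m : ℝ)) :=
            mul_le_mul e1 e2 (abs_nonneg _) (by positivity)
        _ = 2 ^ s.length * (1 / (m : ℝ) ^ (3 / 2 : ℝ)) := by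
            rw [← pow_sqrt m h]
            ring
  have h0 : wt a 0 * trunc s 0 (0 - 1) = 0 := by
    have : a.1 ≠ 0 := by omega
    simp [wt, this]
  have h4 := tendsto_Ioc hsum h0
  have h5 : Tendsto (fun M : ℕ => trunc t 0 M) atTop
      (𝓝 (∑' m : ℕ, wt a m * trunc s 0 (m - 1))) := by
    refine h4.congr fun M => ?_
    rw [h2, trunc_append]
  exact tendsto_nhds_limUnder ⟨_, h5⟩

lemma tendsto_list (l : List (List Entry)) (hl : ∀ t ∈ l, Adm t) :
    Tendsto (fun M : ℕ => (l.map (fun t => 2 ^ t.length * trunc t 0 M)).sum) atTop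
      (𝓝 ((l.map (fun t => 2 ^ t.length * euler t)).sum)) := by
  induction l with
  | nil => simp
  | cons t l ih =>
    simp only [List.map_cons, List.sum_cons]
    exact ((tendsto_euler (hl t (by simp))).const_mul _).add
      (ih fun u hu => hl u (by simp [hu]))

/-- The sharp sum of an admissible string is the limit of the truncated ones. -/
lemma tendsto_sharp {a : Entry} {s : List Entry} (h : Adm (a :: s)) :
    Tendsto (fun M : ℕ => shT (a :: s) 0 M) atTop (𝓝 (sharp (a :: s))) :=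
  tendsto_list _ (adm_strings s a h)

end Q238.SH
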