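import Mathlib

/-!
Alternating Euler sums and the sharp sums of Zhao, for strings of (possibly barred) positive
integers, together with the two finite recursions for the truncated sharp sums.
-/

namespace Q238.SH

open Finset Filter Topology

/-- An entry of an index string: its absolute value, and `true` when it is barred. -/
abbrev Entry := ℕ × Bool

/-- The sign of an entry: `-1` for a barred entry and `1` otherwise. -/
def sgn (a : Entry) : ℝ := if a.2 then -1 else 1

/-- The weight `ε(a)^n / n^|a|` that the entry `a` puts on the integer `n`. -/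
noncomputable def wt (a : Entry) (n : ℕ) : ℝ := sgn a ^ n / (n : ℝ) ^ a.1

/-- The operation that adds absolute values and multiplies signs. -/
def oplus (a b : Entry) : Entry := (a.1 + b.1, xor a.2 b.2)

/-- The truncated Euler sum of the string `s`, taken over `L < n_1 < ... < n_k ≤ M`. -/
noncomputable def trunc : List Entry → ℕ → ℕ → ℝ
  | [], _, _ => 1
  | a :: s, L, M => ∑ n ∈ Ioc L M, wt a n * trunc s n M

/-- The Euler sum of the string `s`, the limit of the truncated sums. -/
noncomputable def euler (s : List Entry) : ℝ :=
  limUnder atTop (fun M : ℕ => trunc s 0 M)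

/-- The strings `a ∘ s_1 ∘ ... ∘ s_k`, each `∘` being a comma or `oplus`. -/
def stringsFrom : Entry → List Entry → List (List Entry)
  | a, [] => [[a]]
  | a, b :: s => (stringsFrom b s).map (fun t => a :: t) ++ stringsFrom (oplus a b) s

/-- The `2^(k-1)` strings `s_1 ∘ ... ∘ s_k`, each `∘` being a comma or `oplus`. -/
def strings : List Entry → List (List Entry)
  | [] => [[]]
  | a :: s => stringsFrom a s

/-- The Euler sharp sum: the sum over the strings `t` of `2^(depth t)` times the Euler sum. -/
noncomputable def sharp (s : List Entry) : ℝ :=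
  ((strings s).map (fun t => 2 ^ t.length * euler t)).sum

/-- The truncated sharp sum. -/
noncomputable def shT (s : List Entry) (L M : ℕ) : ℝ :=
  ((strings s).map (fun t => 2 ^ t.length * trunc t L M)).sum

@[simp] lemma trunc_nil (L M : ℕ) : trunc [] L M = 1 := by simp [trunc]

lemma trunc_cons (a : Entry) (s : List Entry) (L M : ℕ) :
    trunc (a :: s) L M = ∑ n ∈ Ioc L M, wt a n * trunc s n M := by simp [trunc]

lemma sgn_oplus (a b : Entry) : sgn (oplus a b) = sgn a * sgn b := by
  rcases a with ⟨m, x⟩
  rcases b with ⟨n, y⟩
  cases x <;> cases y <;> simp [sgn, oplus]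

lemma wt_oplus (a b : Entry) (n : ℕ) : wt (oplus a b) n = wt a n * wt b n := by
  unfold wt
  rw [sgn_oplus, mul_pow]
  have : (oplus a b).1 = a.1 + b.1 := rfl
  rw [this, pow_add]
  ring

/-- The recursion at the last entry for the truncated Euler sums. -/
lemma trunc_append (s : List Entry) (a : Entry) (L M : ℕ) :
    trunc (s ++ [a]) L M = ∑ m ∈ Ioc L M, wt a m * trunc s L (m - 1) := by
  induction s generalizing L with
  | nil => simp [trunc]
  | cons b s ih =>
    rw [List.cons_append, trunc_cons]
    simp_rw [ih, trunc_cons, mul_sum]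
    rw [sum_comm' (t' := Ioc L M) (s' := fun m => Ioc L (m - 1))]
    · refine sum_congr rfl fun m _ => sum_congr rfl fun n _ => ?_
      ring
    · intro n m
      simp only [mem_Ioc]
      omega

@[simp] lemma shT_nil (L M : ℕ) : shT [] L M = 1 := by simp [shT, strings]

lemma shT_single (a : Entry) (L M : ℕ) :
    shT [a] L M = 2 * ∑ n ∈ Ioc L M, wt a n := by
  simp [shT, strings, stringsFrom, trunc]

lemma list_sum_mul_left {α : Type*} (l : List α) (f : α → ℝ) (c : ℝ) :
    (l.map (fun t => c * f t)).sum = c * (l.map f).sum := by
  induction l with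
  | nil => simp
  | cons x l ih => simp [ih, mul_add]

lemma list_sum_finset {α : Type*} (l : List α) (S : Finset ℕ) (f : α → ℕ → ℝ) :
    (l.map (fun t => ∑ n ∈ S, f t n)).sum = ∑ n ∈ S, (l.map (fun t => f t n)).sum := by
  induction l with
  | nil => simp
  | cons x l ih => simp [ih, sum_add_distrib]

/-- The comma part of the sharp sum. -/
lemma comma_part (a b : Entry) (s : List Entry) (L M : ℕ) :
    (((stringsFrom b s).map (fun t => a :: t)).map
      (fun t => 2 ^ t.length * trunc t L M)).sum
      = 2 * ∑ n ∈ Ioc L M, wt a n * shT (b :: s) n M := by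
  rw [List.map_map]
  have h : ((fun t : List Entry => 2 ^ t.length * trunc t L M) ∘ fun t => a :: t)
      = fun t => ∑ n ∈ Ioc L M, (2 * wt a n) * (2 ^ t.length * trunc t n M) := by
    funext t
    simp only [Function.comp, List.length_cons, trunc_cons, mul_sum]
    refine sum_congr rfl fun n _ => ?_
    ring
  rw [h, list_sum_finset, mul_sum]
  refine sum_congr rfl fun n _ => ?_
  rw [list_sum_mul_left]
  simp only [shT, strings]
  ring

lemma Ioc_pred {n M : ℕ} (h1 : 1 ≤ n) (h2 : n ≤ M) :
    Ioc (n - 1) M = insert n (Ioc n M) := by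
  ext k
  simp only [mem_Ioc, mem_insert]
  omega

/-- The recursion at the first entry for the truncated sharp sums. -/
lemma shT_cons (a : Entry) (s : List Entry) (L M : ℕ) :
    shT (a :: s) L M
      = ∑ n ∈ Ioc L M, wt a n * (shT s n M + shT s (n - 1) M) := by
  induction s generalizing a L with
  | nil =>
    rw [shT_single, mul_sum]
    refine sum_congr rfl fun n _ => ?_
    simp only [shT_nil]
    ring
  | cons b s ih =>
    have h1 : shT (a :: b :: s) L M
        = 2 * (∑ n ∈ Ioc L M, wt a n * shT (b :: s) n M) + shT (oplus a b :: s) L M := by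
      rw [← comma_part]
      simp only [shT, strings, stringsFrom, List.map_append, List.sum_append]
    rw [h1, ih (oplus a b), mul_sum, ← sum_add_distrib]
    refine sum_congr rfl fun n hn => ?_
    rw [mem_Ioc] at hn
    have h2 : shT (b :: s) (n - 1) M
        = shT (b :: s) n M + wt b n * (shT s n M + shT s (n - 1) M) := by
      rw [ih b (n - 1), Ioc_pred (by omega) hn.2, sum_insert (by simp), ← ih b n]
      ring
    rw [h2, wt_oplus]
    ring

lemma shT_self (s : List Entry) (a b : ℕ) : shT s a a = shT s b b := by
  cases s with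
  | nil => simp
  | cons c s => simp [shT_cons]

/-- The recursion at the last entry for the truncated sharp sums. -/
lemma shT_append (s : List Entry) (a : Entry) (L M : ℕ) :
    shT (s ++ [a]) L M
      = ∑ m ∈ Ioc L M, wt a m * (shT s L m + shT s L (m - 1)) := by
  induction s generalizing L with
  | nil =>
    rw [List.nil_append, shT_single, mul_sum]
    refine sum_congr rfl fun n _ => ?_
    simp only [shT_nil]
    ring
  | cons b s ih =>
    rw [List.cons_append, shT_cons]
    simp_rw [ih]
    -- the left side as a double sum
    have hL : ∀ n ∈ Ioc L M, wt b n * ((∑ m ∈ Ioc n M, wt a m * (shT s n m + shT s n (m - 1)))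
        + ∑ m ∈ Ioc (n - 1) M, wt a m * (shT s (n - 1) m + shT s (n - 1) (m - 1)))
        = (∑ m ∈ Ioc n M, wt b n * (wt a m * (shT s n m + shT s n (m - 1)
            + shT s (n - 1) m + shT s (n - 1) (m - 1))))
          + wt b n * (wt a n * (shT s n n + shT s (n - 1) n)) := by
      intro n hn
      rw [mem_Ioc] at hn
      rw [Ioc_pred (n := n) (by omega) hn.2, sum_insert (by simp), mul_add, mul_add, mul_sum,
        mul_sum]
      rw [shT_self s (n - 1) n]
      have : ∑ m ∈ Ioc n M, wt b n * (wt a m * (shT s n m + shT s n (m - 1)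
            + shT s (n - 1) m + shT s (n - 1) (m - 1)))
          = (∑ m ∈ Ioc n M, wt b n * (wt a m * (shT s n m + shT s n (m - 1))))
            + ∑ m ∈ Ioc n M, wt b n * (wt a m * (shT s (n - 1) m + shT s (n - 1) (m - 1))) := by
        rw [← sum_add_distrib]
        refine sum_congr rfl fun m _ => ?_
        ring
      rw [this]
      ring
    rw [sum_congr rfl hL, sum_add_distrib]
    rw [sum_comm' (t' := Ioc L M) (s' := fun m => Ioc L (m - 1))
      (by intro n m; simp only [mem_Ioc]; omega)]
    rw [← sum_add_distrib]
    refine sum_congr rfl fun m hm => ?_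
    rw [mem_Ioc] at hm
    have e1 : Ioc L m = insert m (Ioc L (m - 1)) := by
      ext k
      simp only [mem_Ioc, mem_insert]
      omega
    have e2 : m ∉ Ioc L (m - 1) := by simp only [mem_Ioc]; omega
    have : ∑ i ∈ Ioc L (m - 1), wt b i * (wt a m * (shT s i m + shT s i (m - 1)
            + shT s (i - 1) m + shT s (i - 1) (m - 1)))
          = wt a m * ((∑ i ∈ Ioc L (m - 1), wt b i * (shT s i m + shT s (i - 1) m))
            + ∑ i ∈ Ioc L (m - 1), wt b i * (shT s i (m - 1) + shT s (i - 1) (m - 1))) := by
      rw [← sum_add_distrib, mul_sum]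
      refine sum_congr rfl fun i _ => ?_
      ring
    rw [shT_cons, shT_cons, e1, sum_insert e2, this]
    ring

end Q238.SH
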