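import Pool.Agent.Q238.SH.Transport

/-!
The sum of the double zeta values with even last entry.
-/

namespace Q238.SH

open Finset Filter Topology

/-- The sum over the pairs `m + n = d + 1`, `n` even, of the weights at `(a, b)`. -/
lemma trunc_two (m n M : ℕ) : trunc [(m, false), (n, false)] 0 M
    = ∑ a ∈ Ioc 0 M, ∑ b ∈ Ioc a M, 1 / ((a : ℝ) ^ m * (b : ℝ) ^ n) := by
  simp only [trunc_cons, trunc_nil, mul_one, wt_plain, mul_sum]
  refine sum_congr rfl fun a _ => sum_congr rfl fun b _ => ?_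
  ring

/-- The kernel summed over `n = 2, 4, ..., 2e`, with `m = c + 2 (e - j)`. -/
lemma kernel (c e : ℕ) {a b : ℝ} (ha : 0 < a) (hab : a < b) :
    ∑ j ∈ range e, 1 / (a ^ (c + 2 * (e - 1 - j)) * b ^ (2 * (j + 1)))
      = a ^ 2 / a ^ c * (1 / a ^ (2 * e) - 1 / b ^ (2 * e)) / (b ^ 2 - a ^ 2) := by
  have hb : 0 < b := ha.trans hab
  have hd : b ^ 2 - a ^ 2 ≠ 0 := by nlinarith
  induction e with
  | zero => simp
  | succ e ih =>
    rw [sum_range_succ]
    have h1 : ∑ j ∈ range e, 1 / (a ^ (c + 2 * (e + 1 - 1 - j)) * b ^ (2 * (j + 1)))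
        = (∑ j ∈ range e, 1 / (a ^ (c + 2 * (e - 1 - j)) * b ^ (2 * (j + 1)))) / a ^ 2 := by
      rw [sum_div]
      refine sum_congr rfl fun j hj => ?_
      rw [mem_range] at hj
      have : c + 2 * (e + 1 - 1 - j) = c + 2 * (e - 1 - j) + 2 := by omega
      rw [this, pow_add a _ 2]
      field_simp
    rw [h1, ih]
    have h2 : e + 1 - 1 - e = 0 := by omega
    rw [h2]
    simp only [mul_zero, add_zero]
    have h3 : a ^ (2 * (e + 1)) = a ^ (2 * e) * a ^ 2 := by ring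
    have h4 : b ^ (2 * (e + 1)) = b ^ (2 * e) * b ^ 2 := by ring
    rw [h3, h4]
    have ha' : a ≠ 0 := ha.ne'
    have hb' : b ≠ 0 := hb.ne'
    field_simp
    ring

/-- Partial fractions, the sum over the larger variable. -/
lemma inner_up {a M : ℕ} (ha : 1 ≤ a) (hM : a ≤ M) :
    ∑ b ∈ Ioc a M, 2 * (a : ℝ) / ((b : ℝ) ^ 2 - (a : ℝ) ^ 2)
      = H (2 * a) - (H (M + a) - H (M - a)) := by
  induction M, hM using Nat.le_induction with
  | base =>
    simp only [Ioc_self, sum_empty, Nat.sub_self, H_zero, two_mul]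
    ring
  | succ M hM ih =>
    rw [sum_Ioc_succ_top hM, ih]
    have h1 : M + 1 + a = M + a + 1 := by ring
    have h2 : M + 1 - a = M - a + 1 := by omega
    rw [h1, h2, H_succ, H_succ]
    have h3 : ((M - a : ℕ) : ℝ) = (M : ℝ) - a := Nat.cast_sub hM
    have h4 : (a : ℝ) ≤ M := by exact_mod_cast hM
    have h5 : (0 : ℝ) < a := by exact_mod_cast ha
    have h6 : (M : ℝ) - a + 1 ≠ 0 := by linarith
    have h7 : (M : ℝ) + a + 1 ≠ 0 := by positivity
    have h8 : ((M : ℝ) + 1) ^ 2 - (a : ℝ) ^ 2 ≠ 0 := by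
      have : ((M : ℝ) + 1) ^ 2 - (a : ℝ) ^ 2 = ((M : ℝ) - a + 1) * ((M : ℝ) + a + 1) := by ring
      rw [this]
      exact mul_ne_zero h6 h7
    rw [h3]
    push_cast
    have h9 : 2 * (a : ℝ) / (((M : ℝ) + 1) ^ 2 - (a : ℝ) ^ 2)
        = 1 / ((M : ℝ) - a + 1) - 1 / ((M : ℝ) + a + 1) := by
      field_simp
      ring
    rw [h9]
    ring

/-- Partial fractions, the sums over the smaller variable. -/
lemma inner_down {b k : ℕ} (hk : k < b) :
    (∑ a ∈ Ioc 0 k, 1 / ((b : ℝ) - a) = H (b - 1) - H (b - 1 - k)) ∧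
    (∑ a ∈ Ioc 0 k, 1 / ((b : ℝ) + a) = H (b + k) - H b) := by
  induction k with
  | zero => simp
  | succ k ih =>
    obtain ⟨h1, h2⟩ := ih (by omega)
    rw [sum_Ioc_succ_top (Nat.zero_le k), sum_Ioc_succ_top (Nat.zero_le k), h1, h2]
    constructor
    · have e1 : b - 1 - k = b - 1 - (k + 1) + 1 := by omega
      have e2 : ((b - 1 - (k + 1) : ℕ) : ℝ) = (b : ℝ) - 1 - (k + 1) := by
        have : b - 1 - (k + 1) = b - (k + 2) := by omega
        rw [this, Nat.cast_sub (by omega)]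
        push_cast
        ring
      rw [e1, H_succ, e2]
      push_cast
      have : (b : ℝ) - 1 - (k + 1) + 1 = b - (k + 1) := by ring
      rw [this]
      ring
    · have e1 : b + (k + 1) = b + k + 1 := by ring
      rw [e1, H_succ]
      push_cast
      have : (b : ℝ) + k + 1 = b + (k + 1) := by ring
      rw [this]
      ring

lemma down_one {b : ℕ} (hb : 1 ≤ b) :
    ∑ a ∈ Ioc 0 (b - 1), 2 * (a : ℝ) / ((b : ℝ) ^ 2 - (a : ℝ) ^ 2)
      = H (b - 1) - H (2 * b - 1) + H b := by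
  obtain ⟨h1, h2⟩ := inner_down (b := b) (k := b - 1) (by omega)
  have e : ∀ a ∈ Ioc 0 (b - 1), 2 * (a : ℝ) / ((b : ℝ) ^ 2 - (a : ℝ) ^ 2)
      = 1 / ((b : ℝ) - a) - 1 / ((b : ℝ) + a) := by
    intro a ha
    rw [mem_Ioc] at ha
    have h3 : (a : ℝ) + 1 ≤ b := by
      have : a + 1 ≤ b := by omega
      exact_mod_cast this
    have h4 : (0 : ℝ) < a := by exact_mod_cast ha.1
    have h6 : (b : ℝ) - a ≠ 0 := by linarith
    have h7 : (b : ℝ) + a ≠ 0 := by linarith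
    have h8 : (b : ℝ) ^ 2 - (a : ℝ) ^ 2 ≠ 0 := by
      have : (b : ℝ) ^ 2 - (a : ℝ) ^ 2 = ((b : ℝ) - a) * ((b : ℝ) + a) := by ring
      rw [this]
      exact mul_ne_zero h6 h7
    field_simp
    ring
  rw [sum_congr rfl e, sum_sub_distrib, h1, h2]
  have e1 : b - 1 - (b - 1) = 0 := by omega
  have e2 : b + (b - 1) = 2 * b - 1 := by omega
  rw [e1, e2, H_zero]
  ring

lemma down_two {b : ℕ} (hb : 1 ≤ b) :
    ∑ a ∈ Ioc 0 (b - 1), 2 * (b : ℝ) / ((b : ℝ) ^ 2 - (a : ℝ) ^ 2)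
      = H (b - 1) + H (2 * b - 1) - H b := by
  obtain ⟨h1, h2⟩ := inner_down (b := b) (k := b - 1) (by omega)
  have e : ∀ a ∈ Ioc 0 (b - 1), 2 * (b : ℝ) / ((b : ℝ) ^ 2 - (a : ℝ) ^ 2)
      = 1 / ((b : ℝ) - a) + 1 / ((b : ℝ) + a) := by
    intro a ha
    rw [mem_Ioc] at ha
    have h3 : (a : ℝ) + 1 ≤ b := by
      have : a + 1 ≤ b := by omega
      exact_mod_cast this
    have h4 : (0 : ℝ) < a := by exact_mod_cast ha.1
    have h6 : (b : ℝ) - a ≠ 0 := by linarith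
    have h7 : (b : ℝ) + a ≠ 0 := by linarith
    have h8 : (b : ℝ) ^ 2 - (a : ℝ) ^ 2 ≠ 0 := by
      have : (b : ℝ) ^ 2 - (a : ℝ) ^ 2 = ((b : ℝ) - a) * ((b : ℝ) + a) := by ring
      rw [this]
      exact mul_ne_zero h6 h7
    field_simp
    ring
  rw [sum_congr rfl e, sum_add_distrib, h1, h2]
  have e1 : b - 1 - (b - 1) = 0 := by omega
  have e2 : b + (b - 1) = 2 * b - 1 := by omega
  rw [e1, e2, H_zero]
  ring

/-- The remainder. -/
noncomputable def rem (d M : ℕ) : ℝ := ∑ k ∈ Ioc 0 M, (H (M + k) - H (M - k)) / (k : ℝ) ^ d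

lemma H_gap {k M : ℕ} (hk : k ≤ M) :
    0 ≤ H (M + k) - H (M - k) ∧ H (M + k) - H (M - k) ≤ 2 * k / ((M : ℝ) - k + 1) := by
  have h : H (M + k) - H (M - k) = ∑ i ∈ Ioc (M - k) (M + k), 1 / (i : ℝ) := by
    unfold H
    rw [sub_eq_iff_eq_add, ← sum_union]
    · refine sum_congr ?_ fun _ _ => rfl
      ext i
      simp only [mem_Ioc, mem_union]
      omega
    · rw [disjoint_left]
      intro i
      simp only [mem_Ioc]
      omega
  rw [h]
  refine ⟨sum_nonneg fun i _ => by positivity, ?_⟩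
  have h4 : (k : ℝ) ≤ M := by exact_mod_cast hk
  have hn : (0 : ℝ) < (M : ℝ) - k + 1 := by linarith
  calc ∑ i ∈ Ioc (M - k) (M + k), 1 / (i : ℝ)
      ≤ ∑ _i ∈ Ioc (M - k) (M + k), 1 / ((M : ℝ) - k + 1) := by
        refine sum_le_sum fun i hi => ?_
        rw [mem_Ioc] at hi
        refine one_div_le_one_div_of_le hn ?_
        have h5 : M - k + 1 ≤ i := hi.1
        have h6 : ((M - k + 1 : ℕ) : ℝ) ≤ i := by exact_mod_cast h5
        rw [Nat.cast_add, Nat.cast_sub hk] at h6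
        push_cast at h6
        exact h6
    _ = 2 * k / ((M : ℝ) - k + 1) := by
        rw [sum_const, Nat.card_Ioc]
        have : M + k - (M - k) = 2 * k := by omega
        rw [this, nsmul_eq_mul]
        push_cast
        ring

lemma rem_tendsto {d : ℕ} (hd : 3 ≤ d) : Tendsto (fun M => rem d M) atTop (𝓝 0) := by
  set f : ℕ → ℕ → ℝ := fun M k =>
    if k ≤ M then (H (M + k) - H (M - k)) / (k : ℝ) ^ d else 0 with hf
  have h0 : (0 : ℝ) = ∑' _k : ℕ, (0 : ℝ) := by simp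
  have h1 : Tendsto (fun M : ℕ => ∑' k, f M k) atTop (𝓝 (∑' _k : ℕ, (0 : ℝ))) := by
    refine tendsto_tsum_of_dominated_convergence
      (bound := fun k : ℕ => 2 * (1 / (k : ℝ) ^ 2))
      ((Real.summable_one_div_nat_pow.mpr (by norm_num)).mul_left _) ?_ ?_
    · intro k
      have hlim : Tendsto (fun M : ℕ => 2 * (k : ℝ) / ((M : ℝ) - k + 1) / (k : ℝ) ^ d) atTop
          (𝓝 0) := by
        have : Tendsto (fun M : ℕ => 2 * (k : ℝ) / ((M : ℝ) - k + 1)) atTop (𝓝 0) := by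
          refine Tendsto.div_atTop tendsto_const_nhds ?_
          have : Tendsto (fun M : ℕ => (M : ℝ) + (-(k : ℝ) + 1)) atTop atTop :=
            tendsto_atTop_add_const_right _ _ tendsto_natCast_atTop_atTop
          refine this.congr fun M => ?_
          ring
        simpa using this.div_const ((k : ℝ) ^ d)
      refine squeeze_zero' ?_ ?_ hlim
      · filter_upwards [eventually_ge_atTop k] with M hM
        rw [hf]
        simp only [hM, if_true]
        exact div_nonneg (H_gap hM).1 (by positivity)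
      · filter_upwards [eventually_ge_atTop k] with M hM
        rw [hf]
        simp only [hM, if_true]
        exact div_le_div_of_nonneg_right (H_gap hM).2 (by positivity)
    · refine Eventually.of_forall fun M k => ?_
      rw [hf]
      dsimp only
      split_ifs with h
      · rcases Nat.eq_zero_or_pos k with hk | hk
        · subst hk
          simp
        · obtain ⟨h2, h3⟩ := H_gap h
          have hkR : (1 : ℝ) ≤ k := by exact_mod_cast hk
          have h4 : (k : ℝ) ≤ M := by exact_mod_cast h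
          have h5 : 2 * (k : ℝ) / ((M : ℝ) - k + 1) ≤ 2 * k := by
            apply div_le_self (by positivity)
            linarith
          rw [Real.norm_eq_abs, abs_of_nonneg (div_nonneg h2 (by positivity))]
          rw [div_le_iff₀ (by positivity)]
          have h6 : (k : ℝ) ^ 3 ≤ (k : ℝ) ^ d := pow_le_pow_right₀ hkR hd
          calc H (M + k) - H (M - k) ≤ 2 * k := h3.trans h5
            _ = 2 * (1 / (k : ℝ) ^ 2) * (k : ℝ) ^ 3 := by field_simp
            _ ≤ 2 * (1 / (k : ℝ) ^ 2) * (k : ℝ) ^ d :=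
                mul_le_mul_of_nonneg_left h6 (by positivity)
      · simp only [norm_zero]
        positivity
  rw [h0]
  refine h1.congr fun M => ?_
  rw [tsum_eq_sum (s := Ioc 0 M)]
  · unfold rem
    refine sum_congr rfl fun k hk => ?_
    rw [mem_Ioc] at hk
    simp [hf, hk.2]
  · intro k hk
    rw [mem_Ioc, not_and_or] at hk
    rcases hk with h | h
    · have : k = 0 := by omega
      subst this
      simp [hf]
    · simp [hf, h]

/-- The finite sum of the truncated double zeta values. -/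
noncomputable def D (c e M : ℕ) : ℝ :=
  ∑ j ∈ range e, trunc [(c + 2 * (e - 1 - j), false), (2 * (j + 1), false)] 0 M

lemma D_eq (c e M : ℕ) : D c e M = ∑ a ∈ Ioc 0 M, ∑ b ∈ Ioc a M,
    (a : ℝ) ^ 2 / (a : ℝ) ^ c * (1 / (a : ℝ) ^ (2 * e) - 1 / (b : ℝ) ^ (2 * e))
      / ((b : ℝ) ^ 2 - (a : ℝ) ^ 2) := by
  unfold D
  simp only [trunc_two]
  rw [sum_comm]
  refine sum_congr rfl fun a ha => ?_
  rw [sum_comm]
  refine sum_congr rfl fun b hb => ?_
  rw [mem_Ioc] at ha hb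
  exact kernel c e (by exact_mod_cast ha.1) (by exact_mod_cast hb.1)

lemma swap_sum (f : ℕ → ℕ → ℝ) (M : ℕ) :
    ∑ a ∈ Ioc 0 M, ∑ b ∈ Ioc a M, f a b = ∑ b ∈ Ioc 0 M, ∑ a ∈ Ioc 0 (b - 1), f a b := by
  refine sum_comm' ?_
  intro a b
  simp only [mem_Ioc]
  omega

lemma H_pred {k : ℕ} (hk : 1 ≤ k) : H (k - 1) = H k - 1 / (k : ℝ) := by
  obtain ⟨m, rfl⟩ : ∃ m, k = m + 1 := ⟨k - 1, by omega⟩
  rw [H_succ]
  simp

lemma H_pred2 {k : ℕ} (hk : 1 ≤ k) : H (2 * k - 1) = H (2 * k) - 1 / (2 * (k : ℝ)) := by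
  rw [H_pred (by omega)]
  push_cast
  rfl

lemma D_one (e M : ℕ) : D 1 e M
    = (∑ k ∈ Ioc 0 M, (H (2 * k) - H k) / (k : ℝ) ^ (2 * e))
      + 1 / 4 * (∑ k ∈ Ioc 0 M, 1 / (k : ℝ) ^ (2 * e + 1)) - 1 / 2 * rem (2 * e) M := by
  have h1 : D 1 e M
      = (∑ a ∈ Ioc 0 M, ∑ b ∈ Ioc a M, 1 / 2 * (1 / (a : ℝ) ^ (2 * e))
          * (2 * (a : ℝ) / ((b : ℝ) ^ 2 - (a : ℝ) ^ 2)))
        - ∑ a ∈ Ioc 0 M, ∑ b ∈ Ioc a M, 1 / 2 * (1 / (b : ℝ) ^ (2 * e))
          * (2 * (a : ℝ) / ((b : ℝ) ^ 2 - (a : ℝ) ^ 2)) := by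
    rw [D_eq, ← sum_sub_distrib]
    refine sum_congr rfl fun a ha => ?_
    rw [← sum_sub_distrib]
    refine sum_congr rfl fun b hb => ?_
    rw [mem_Ioc] at ha hb
    have h4 : (0 : ℝ) < a := by exact_mod_cast ha.1
    have h5 : (a : ℝ) ^ 2 / (a : ℝ) ^ 1 = a := by field_simp
    rw [h5]
    ring
  rw [swap_sum (fun a b => 1 / 2 * (1 / (b : ℝ) ^ (2 * e))
          * (2 * (a : ℝ) / ((b : ℝ) ^ 2 - (a : ℝ) ^ 2)))] at h1
  simp only [← mul_sum] at h1
  rw [h1]
  unfold rem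
  rw [mul_sum, mul_sum, ← sum_add_distrib, ← sum_sub_distrib, ← sum_sub_distrib]
  refine sum_congr rfl fun k hk => ?_
  rw [mem_Ioc] at hk
  rw [inner_up hk.1 hk.2, down_one hk.1, H_pred hk.1, H_pred2 hk.1]
  have h4 : (k : ℝ) ≠ 0 := by
    have : (0 : ℝ) < k := by exact_mod_cast hk.1
    exact this.ne'
  rw [pow_succ (k : ℝ) (2 * e)]
  field_simp
  ring

lemma D_two (e M : ℕ) : D 2 e M
    = 3 / 4 * (∑ k ∈ Ioc 0 M, 1 / (k : ℝ) ^ (2 * e + 2)) - 1 / 2 * rem (2 * e + 1) M := by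
  have h1 : D 2 e M
      = (∑ a ∈ Ioc 0 M, ∑ b ∈ Ioc a M, 1 / 2 * (1 / (a : ℝ) ^ (2 * e + 1))
          * (2 * (a : ℝ) / ((b : ℝ) ^ 2 - (a : ℝ) ^ 2)))
        - ∑ a ∈ Ioc 0 M, ∑ b ∈ Ioc a M, 1 / 2 * (1 / (b : ℝ) ^ (2 * e + 1))
          * (2 * (b : ℝ) / ((b : ℝ) ^ 2 - (a : ℝ) ^ 2)) := by
    rw [D_eq, ← sum_sub_distrib]
    refine sum_congr rfl fun a ha => ?_
    rw [← sum_sub_distrib]
    refine sum_congr rfl fun b hb => ?_
    rw [mem_Ioc] at ha hb
    have h4 : (0 : ℝ) < a := by exact_mod_cast ha.1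
    have h6 : (a : ℝ) < b := by exact_mod_cast hb.1
    have h7 : (0 : ℝ) < b := h4.trans h6
    have h5 : (a : ℝ) ^ 2 / (a : ℝ) ^ 2 = 1 := by field_simp
    have h8 : (b : ℝ) ^ 2 - (a : ℝ) ^ 2 ≠ 0 := by nlinarith
    rw [h5, pow_succ (a : ℝ) (2 * e), pow_succ (b : ℝ) (2 * e)]
    field_simp
  rw [swap_sum (fun a b => 1 / 2 * (1 / (b : ℝ) ^ (2 * e + 1))
          * (2 * (b : ℝ) / ((b : ℝ) ^ 2 - (a : ℝ) ^ 2)))] at h1
  simp only [← mul_sum] at h1
  rw [h1]
  unfold rem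
  rw [mul_sum, mul_sum, ← sum_sub_distrib, ← sum_sub_distrib]
  refine sum_congr rfl fun k hk => ?_
  rw [mem_Ioc] at hk
  rw [inner_up hk.1 hk.2, down_two hk.1, H_pred hk.1, H_pred2 hk.1]
  have h4 : (k : ℝ) ≠ 0 := by
    have : (0 : ℝ) < k := by exact_mod_cast hk.1
    exact this.ne'
  have h5 : (k : ℝ) ^ (2 * e + 2) = (k : ℝ) ^ (2 * e + 1) * k := by ring
  rw [h5]
  field_simp
  ring

/-- The Riemann zeta value as the Euler sum of depth one. -/
lemma tendsto_zeta {s : ℕ} (hs : 2 ≤ s) :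
    Tendsto (fun M : ℕ => ∑ k ∈ Ioc 0 M, 1 / (k : ℝ) ^ s) atTop (𝓝 (euler [(s, false)])) := by
  refine (tendsto_euler (t := [(s, false)]) (adm_single hs)).congr fun M => ?_
  simp [trunc_cons, wt_plain]

lemma tendsto_D (c e : ℕ) (hc : 1 ≤ c) : Tendsto (fun M => D c e M) atTop
    (𝓝 (∑ j ∈ range e, euler [(c + 2 * (e - 1 - j), false), (2 * (j + 1), false)])) := by
  unfold D
  refine tendsto_finsetSum _ fun j _ => tendsto_euler ?_
  exact adm_cons (by change 1 ≤ c + 2 * (e - 1 - j); omega)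
    (adm_single (by change 2 ≤ 2 * (j + 1); omega))

lemma even_case {e : ℕ} (he : 2 ≤ e) :
    ∑ j ∈ range e, euler [(1 + 2 * (e - 1 - j), false), (2 * (j + 1), false)]
      = Lser (2 * e) + 1 / 4 * euler [(2 * e + 1, false)] := by
  refine tendsto_nhds_unique (tendsto_D 1 e le_rfl) ?_
  simp only [D_one]
  have h := ((tendsto_Lser (d := 2 * e) (by omega)).add
    ((tendsto_zeta (s := 2 * e + 1) (by omega)).const_mul (1 / 4))).sub
      ((rem_tendsto (d := 2 * e) (by omega)).const_mul (1 / 2))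
  simpa using h

lemma odd_case {e : ℕ} (he : 1 ≤ e) :
    ∑ j ∈ range e, euler [(2 + 2 * (e - 1 - j), false), (2 * (j + 1), false)]
      = 3 / 4 * euler [(2 * e + 2, false)] := by
  refine tendsto_nhds_unique (tendsto_D 2 e (by norm_num)) ?_
  simp only [D_two]
  have h := ((tendsto_zeta (s := 2 * e + 2) (by omega)).const_mul (3 / 4)).sub
      ((rem_tendsto (d := 2 * e + 1) (by omega)).const_mul (1 / 2))
  simpa using h

/-- The pairs `(m, n)` with `m + n = c + 2e`, `m ≥ 1`, `n ≥ 2` even, listed. -/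
lemma pairs_sum (F : ℕ → ℕ → ℝ) {c e : ℕ} (hc : 1 ≤ c) (hc2 : c ≤ 2) :
    ∑ p ∈ (antidiagonal (c + 2 * e)).filter (fun p => 1 ≤ p.1 ∧ 2 ≤ p.2 ∧ Even p.2), F p.1 p.2
      = ∑ j ∈ range e, F (c + 2 * (e - 1 - j)) (2 * (j + 1)) := by
  symm
  refine sum_bij (fun j _ => (c + 2 * (e - 1 - j), 2 * (j + 1))) ?_ ?_ ?_ ?_
  · intro j hj
    rw [mem_range] at hj
    simp only [mem_filter, HasAntidiagonal.mem_antidiagonal]
    refine ⟨by omega, by omega, by omega, ?_⟩
    exact even_two_mul _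
  · intro i _ j _ h
    simp only [Prod.mk.injEq] at h
    omega
  · rintro ⟨m, n⟩ hp
    simp only [mem_filter, HasAntidiagonal.mem_antidiagonal] at hp
    obtain ⟨h1, h2, h3, k, hk⟩ := hp
    refine ⟨k - 1, ?_, ?_⟩
    · rw [mem_range]
      omega
    · simp only [Prod.mk.injEq]
      omega
  · intro j _
    rfl

lemma zeta_lt {d : ℕ} (hd : 2 ≤ d) : euler [(d + 1, false)] < euler [(d, false)] := by
  have h1 := tendsto_zeta hd
  have h2 := tendsto_zeta (s := d + 1) (by omega)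
  have h3 : ∀ᶠ M : ℕ in atTop, (1 / (2 : ℝ) ^ d - 1 / 2 ^ (d + 1))
      ≤ (∑ k ∈ Ioc 0 M, 1 / (k : ℝ) ^ d) - ∑ k ∈ Ioc 0 M, 1 / (k : ℝ) ^ (d + 1) := by
    filter_upwards [eventually_ge_atTop 2] with M hM
    rw [← sum_sub_distrib]
    have hmem : 2 ∈ Ioc 0 M := by
      rw [mem_Ioc]
      omega
    have hnn : ∀ k ∈ Ioc 0 M, 0 ≤ 1 / (k : ℝ) ^ d - 1 / (k : ℝ) ^ (d + 1) := by
      intro k hk
      rw [mem_Ioc] at hk
      have hk1 : (1 : ℝ) ≤ k := by exact_mod_cast hk.1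
      rw [sub_nonneg]
      exact one_div_le_one_div_of_le (by positivity) (pow_le_pow_right₀ hk1 (Nat.le_succ d))
    have := single_le_sum hnn hmem
    simpa using this
  have h4 := ge_of_tendsto (h1.sub h2) h3
  have h5 : (0 : ℝ) < 1 / (2 : ℝ) ^ d - 1 / 2 ^ (d + 1) := by
    rw [sub_pos]
    apply one_div_lt_one_div_of_lt (by positivity)
    exact pow_lt_pow_right₀ (by norm_num) (Nat.lt_succ_self d)
  linarith

lemma Lser_ge {d : ℕ} (hd : 2 ≤ d) : euler [(d, false)] ≤ 2 * Lser d := by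
  refine le_of_tendsto_of_tendsto' (tendsto_zeta hd) ((tendsto_Lser hd).const_mul 2) fun M => ?_
  rw [mul_sum]
  refine sum_le_sum fun k hk => ?_
  rw [mem_Ioc] at hk
  have h1 := H_diff_ge hk.1
  have h2 : (0 : ℝ) < (k : ℝ) ^ d := by
    have : (0 : ℝ) < k := by exact_mod_cast hk.1
    positivity
  rw [div_le_iff₀ h2, mul_assoc, div_mul_cancel₀ _ h2.ne']
  linarith

/-- The right side of the identity, for even `d`. -/
lemma rhs_even {d : ℕ} (hd : 3 ≤ d) (he : Even d) :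
    1 / 2 * euler [(d + 1, false)]
      - 2 * ∑ p ∈ (antidiagonal (d + 1)).filter (fun p => 1 ≤ p.1 ∧ 2 ≤ p.2 ∧ Even p.2),
          euler [(p.1, false), (p.2, false)] = -2 * Lser d := by
  obtain ⟨e, he⟩ := he
  obtain rfl : d = 2 * e := by omega
  have h : 2 * e + 1 = 1 + 2 * e := by ring
  have h2 := pairs_sum (fun m n => euler [(m, false), (n, false)]) (c := 1) (e := e) le_rfl
    (by norm_num)
  rw [← h] at h2
  rw [h2, even_case (by omega)]
  ring

/-- The right side of the identity, for odd `d`. -/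
lemma rhs_odd {d : ℕ} (hd : 3 ≤ d) (he : Odd d) :
    1 / 2 * euler [(d + 1, false)]
      - 2 * ∑ p ∈ (antidiagonal (d + 1)).filter (fun p => 1 ≤ p.1 ∧ 2 ≤ p.2 ∧ Even p.2),
          euler [(p.1, false), (p.2, false)] = - euler [(d + 1, false)] := by
  obtain ⟨e, he⟩ := he
  obtain rfl : d = 2 * e + 1 := by omega
  have h : 2 * e + 1 + 1 = 2 + 2 * e := by ring
  have h2 := pairs_sum (fun m n => euler [(m, false), (n, false)]) (c := 2) (e := e)
    (by norm_num) le_rfl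
  rw [← h] at h2
  have h3 : 2 * e + 2 = 2 * e + 1 + 1 := by ring
  rw [h2, odd_case (by omega), h3]
  ring

end Q238.SH
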