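import Pool.Agent.Q5.SH.Stm
import Pool.Agent.Q170.SG.LC
import Pool.Agent.Q31.SG.LK

/-!
# Project SH (helper5), job LT: an auxiliary extension for two primes
-/

set_option autoImplicit false

namespace Pool.Agent.Q238.SH

open NumberField IsDedekindDomain Module Polynomial Pool.Agent.Y18.LC Pool.Agent.Q5.SG
  Pool.Agent.Q5.SH

/-- a root of unity of order prime to `W` which is `1` modulo `W` is `1` -/
theorem root_one {Ω : Type} [Field Ω] [NumberField Ω] (W : HeightOneSpectrum (𝓞 Ω)) {n : ℕ}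
    (hn : W.valuation Ω (n : Ω) = 1) {ω : Ω} (h1 : ω ^ n = 1) (h2 : W.valuation Ω (ω - 1) < 1) :
    ω = 1 := by
  have hv : W.valuation Ω ω = 1 := val_eq_one_of_sub h2
  have hp : ∀ i : ℕ, W.valuation Ω (ω ^ i - 1) < 1 := by
    intro i
    induction i with
    | zero => rw [pow_zero, sub_self, map_zero]; exact zero_lt_one
    | succ i ih =>
      have h3 : ω ^ (i + 1) - 1 = ω * (ω ^ i - 1) + (ω - 1) := by ring
      rw [h3]
      refine lt_of_le_of_lt (Valuation.map_add _ _ _) (max_lt ?_ h2)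
      rw [map_mul, hv, one_mul]
      exact ih
  have hs : ∀ m : ℕ, W.valuation Ω (∑ i ∈ Finset.range m, ω ^ i - (m : Ω)) < 1 := by
    intro m
    induction m with
    | zero => rw [Finset.sum_range_zero, Nat.cast_zero, sub_zero, map_zero]; exact zero_lt_one
    | succ m ih =>
      have h3 : ∑ i ∈ Finset.range (m + 1), ω ^ i - ((m + 1 : ℕ) : Ω) =
          (∑ i ∈ Finset.range m, ω ^ i - (m : Ω)) + (ω ^ m - 1) := by
        rw [Finset.sum_range_succ]
        push_cast
        ring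
      rw [h3]
      exact lt_of_le_of_lt (Valuation.map_add _ _ _) (max_lt ih (hp m))
  by_contra hne
  have h4 : (∑ i ∈ Finset.range n, ω ^ i) * (ω - 1) = 0 := by
    rw [geom_sum_mul, h1, sub_self]
  have h5 : ∑ i ∈ Finset.range n, ω ^ i = 0 := by
    rcases mul_eq_zero.1 h4 with h | h
    · exact h
    · exact absurd (sub_eq_zero.1 h) hne
  have h6 := hs n
  rw [h5, zero_sub, Valuation.map_neg, hn] at h6
  exact lt_irrefl _ h6

theorem val_map_eq_one {K Ω : Type} [Field K] [NumberField K] [Field Ω] [NumberField Ω]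
    [Algebra K Ω] {v : HeightOneSpectrum (𝓞 K)} {W : HeightOneSpectrum (𝓞 Ω)}
    (hW : W.under (𝓞 K) = v) {y : 𝓞 K} (hy : y ∉ v.asIdeal) :
    W.valuation Ω (algebraMap K Ω (y : K)) = 1 := by
  have h1 : algebraMap (𝓞 K) (𝓞 Ω) y ∉ W.asIdeal := by
    intro h
    apply hy
    rw [← hW]
    exact h
  have h2 : algebraMap K Ω (y : K) = ((algebraMap (𝓞 K) (𝓞 Ω) y : 𝓞 Ω) : Ω) := rfl
  rw [h2]
  refine le_antisymm (W.valuation_le_one (K := Ω) _) ?_
  rw [← not_lt]
  intro h3
  exact h1 ((W.valuation_lt_one_iff_mem (K := Ω) _).1 h3)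

theorem inTriv_of {K L : Type} [Field K] [NumberField K] [Field L] [NumberField L] [Algebra K L]
    {v : HeightOneSpectrum (𝓞 K)} (θ : L) (hgen : Algebra.adjoin K {θ} = ⊤) (n : ℕ)
    (hn : (n : 𝓞 K) ∉ v.asIdeal) (y : 𝓞 K) (hy : y ∉ v.asIdeal)
    (hθ : θ ^ n = algebraMap K L (y : K)) : InTriv K L v := by
  intro Ω _ _ _ _ _ _ W hW g hg z
  have hn0 : n ≠ 0 := by
    rintro rfl
    apply hn
    rw [Nat.cast_zero]
    exact zero_mem _
  obtain ⟨r, hr⟩ : ∃ r : Ω, r = algebraMap L Ω θ := ⟨_, rfl⟩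
  have hrn : r ^ n = algebraMap K Ω (y : K) := by
    rw [hr, ← map_pow, hθ, ← IsScalarTower.algebraMap_apply]
  have hvr : W.valuation Ω r = 1 := by
    have h1 : W.valuation Ω r ^ n = 1 := by
      rw [← map_pow, hrn]
      exact val_map_eq_one hW hy
    exact (pow_eq_one_iff.1 h1).resolve_right hn0
  have hr0 : r ≠ 0 := by
    rintro h0
    rw [h0, map_zero] at hvr
    exact zero_ne_one hvr
  have hint : IsIntegral ℤ r := by
    refine IsIntegral.of_pow (n := n) (Nat.pos_of_ne_zero hn0) ?_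
    rw [hrn]
    exact (y.isIntegral_coe).map (algebraMap K Ω).toIntAlgHom
  have h2 : W.valuation Ω (g r - r) < 1 := hg ⟨r, hint⟩
  have h3 : g r / r = 1 := by
    refine root_one W (n := n) ?_ ?_ ?_
    · have := val_map_eq_one (Ω := Ω) hW hn
      have e : algebraMap K Ω ((n : 𝓞 K) : K) = (n : Ω) := by
        have : ((n : 𝓞 K) : K) = (n : K) := map_natCast (algebraMap (𝓞 K) K) n
        rw [this, map_natCast]
      rwa [e] at this
    · rw [div_pow, ← map_pow, hrn, AlgEquiv.commutes, div_self]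
      rw [← hrn]
      exact pow_ne_zero _ hr0
    · have e : g r / r - 1 = (g r - r) / r := by
        field_simp
      rw [e, map_div₀, hvr, div_one]
      exact h2
  have h4 : g r = r := by
    rw [div_eq_one_iff_eq hr0] at h3
    exact h3
  have h5 : (g.toAlgHom.comp (IsScalarTower.toAlgHom K L Ω)) = IsScalarTower.toAlgHom K L Ω := by
    refine AlgHom.ext_of_adjoin_eq_top hgen ?_
    intro x hx
    rw [Set.mem_singleton_iff] at hx
    subst hx
    show g (algebraMap L Ω x) = algebraMap L Ω x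
    rw [← hr]
    exact h4
  exact congrArg (fun φ : L →ₐ[K] Ω => φ z) h5

theorem lt : S_LT := by
  intro K _ _ t v hvt hq hun
  have hm : v.asIdeal.IsMaximal := v.isMaximal
  by_cases hqv : ((Ideal.absNorm t.asIdeal : ℕ) : 𝓞 K) ∈ v.asIdeal
  · obtain ⟨n, hn⟩ : ∃ n, n = Ideal.absNorm t.asIdeal - 1 := ⟨_, rfl⟩
    have hn1 : 1 ≤ n := by have := hq.two_le; omega
    obtain ⟨y, h1, h2, h3⟩ := Pool.Agent.Q31.SG.exists_y hvt
    have hirr := Pool.Agent.Q31.SG.irr hn1 h1 h2
    have : Fact (Irreducible (X ^ n - C (y : K) : K[X])) := ⟨hirr⟩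
    have hmon : (X ^ n - C (y : K) : K[X]).Monic := monic_X_pow_sub_C _ (by omega)
    have hdeg : (X ^ n - C (y : K) : K[X]).natDegree = n := natDegree_X_pow_sub_C
    have : FiniteDimensional K (AdjoinRoot (X ^ n - C (y : K) : K[X])) :=
      (AdjoinRoot.powerBasis hmon.ne_zero).finite
    have : NumberField (AdjoinRoot (X ^ n - C (y : K) : K[X])) :=
      NumberField.of_module_finite K _
    have hfr : finrank K (AdjoinRoot (X ^ n - C (y : K) : K[X])) = n := by
      rw [(AdjoinRoot.powerBasis hmon.ne_zero).finrank, AdjoinRoot.powerBasis_dim, hdeg]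
    have hrt : (AdjoinRoot.root (X ^ n - C (y : K) : K[X])) ^ n =
        algebraMap K (AdjoinRoot (X ^ n - C (y : K) : K[X])) (y : K) := by
      have := AdjoinRoot.eval₂_root (X ^ n - C (y : K) : K[X])
      rw [eval₂_sub, eval₂_X_pow, eval₂_C, sub_eq_zero] at this
      exact this
    have hint : IsIntegral ℤ (AdjoinRoot.root (X ^ n - C (y : K) : K[X])) := by
      refine IsIntegral.of_pow (n := n) hn1 ?_
      rw [hrt]
      exact (y.isIntegral_coe).map
        (algebraMap K (AdjoinRoot (X ^ n - C (y : K) : K[X]))).toIntAlgHom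
    obtain ⟨ρ, hρ⟩ : ∃ ρ : 𝓞 (AdjoinRoot (X ^ n - C (y : K) : K[X])),
        (ρ : AdjoinRoot (X ^ n - C (y : K) : K[X])) = AdjoinRoot.root _ := ⟨⟨_, hint⟩, rfl⟩
    have hρn : ρ ^ n = algebraMap (𝓞 K) (𝓞 (AdjoinRoot (X ^ n - C (y : K) : K[X]))) y := by
      apply RingOfIntegers.ext
      have h4 : ((ρ ^ n : 𝓞 (AdjoinRoot (X ^ n - C (y : K) : K[X]))) :
          AdjoinRoot (X ^ n - C (y : K) : K[X])) =
          (AdjoinRoot.root (X ^ n - C (y : K) : K[X])) ^ n := by
        rw [← hρ]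
        exact map_pow (algebraMap (𝓞 (AdjoinRoot (X ^ n - C (y : K) : K[X])))
          (AdjoinRoot (X ^ n - C (y : K) : K[X]))) ρ n
      rw [h4, hrt]
      rfl
    refine ⟨AdjoinRoot (X ^ n - C (y : K) : K[X]), inferInstance, inferInstance, inferInstance,
      hfr.trans hn, Pool.Agent.Q31.SG.totRam hn1 hfr h1 h2 hρn, ?_⟩
    refine inTriv_of (AdjoinRoot.root (X ^ n - C (y : K) : K[X])) AdjoinRoot.adjoinRoot_eq_top n
      ?_ y h3 hrt
    intro h4
    refine hm.ne_top ((Ideal.eq_top_iff_one _).2 ?_)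
    have h5 : (1 : 𝓞 K) = ((Ideal.absNorm t.asIdeal : ℕ) : 𝓞 K) - (n : 𝓞 K) := by
      have : Ideal.absNorm t.asIdeal = n + 1 := by omega
      rw [this]
      push_cast
      ring
    rw [h5]
    exact Ideal.sub_mem _ hqv h4
  · have : NeZero (Ideal.absNorm t.asIdeal) := ⟨hq.ne_zero⟩
    have : NumberField (CyclotomicField (Ideal.absNorm t.asIdeal) K) :=
      IsCyclotomicExtension.numberField {Ideal.absNorm t.asIdeal} K _
    obtain ⟨h1, h2⟩ := Pool.Agent.Q170.SG.lc1 K (CyclotomicField (Ideal.absNorm t.asIdeal) K)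
      (Ideal.absNorm t.asIdeal) hq t (Ideal.absNorm_mem _) hun
    have hz := IsCyclotomicExtension.zeta_spec (Ideal.absNorm t.asIdeal) K
      (CyclotomicField (Ideal.absNorm t.asIdeal) K)
    refine ⟨CyclotomicField (Ideal.absNorm t.asIdeal) K, inferInstance, inferInstance,
      inferInstance, h1, h2, ?_⟩
    refine inTriv_of (IsCyclotomicExtension.zeta (Ideal.absNorm t.asIdeal) K
      (CyclotomicField (Ideal.absNorm t.asIdeal) K))
      (IsCyclotomicExtension.adjoin_primitive_root_eq_top hz) (Ideal.absNorm t.asIdeal) hqv 1 ?_ ?_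
    · intro h
      exact hm.ne_top ((Ideal.eq_top_iff_one _).2 h)
    · rw [hz.pow_eq_one]
      have : ((1 : 𝓞 K) : K) = 1 := map_one (algebraMap (𝓞 K) K)
      rw [this, map_one]

end Pool.Agent.Q238.SH
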