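import Pool.Agent.Q238.SH.Conv

/-!
The transport of the truncated sharp sums of `(2, 1, ..., 1)` through the weights
`R N m = N!^2 / ((N-m)! (N+m)!)`.
-/

namespace Q238.SH

open Finset Filter Topology

/-- The weights `R N m = N!^2 / ((N-m)! (N+m)!)` (zero for `m > N`). -/
noncomputable def R (N : ℕ) : ℕ → ℝ
  | 0 => 1
  | m + 1 => R N m * (((N : ℝ) - m) / ((N : ℝ) + m + 1))

lemma R_succ (N m : ℕ) : R N (m + 1) = R N m * (((N : ℝ) - m) / ((N : ℝ) + m + 1)) := rfl

lemma R_abs_le (N m : ℕ) : |R N m| ≤ 1 := by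
  induction m with
  | zero => simp [R]
  | succ m ih =>
    rw [R_succ, abs_mul, abs_div]
    have h1 : (0 : ℝ) < (N : ℝ) + m + 1 := by positivity
    have h2 : |(N : ℝ) - m| ≤ |(N : ℝ) + m + 1| := by
      rw [abs_of_pos h1, abs_le]
      have := (Nat.cast_nonneg N : (0 : ℝ) ≤ N)
      have := (Nat.cast_nonneg m : (0 : ℝ) ≤ m)
      constructor <;> linarith
    have h3 : |(N : ℝ) - m| / |(N : ℝ) + m + 1| ≤ 1 := by
      rw [div_le_one (abs_pos.mpr h1.ne')]
      exact h2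
    calc |R N m| * (|(N : ℝ) - m| / |(N : ℝ) + m + 1|) ≤ 1 * 1 :=
          mul_le_mul ih h3 (by positivity) (by norm_num)
      _ = 1 := by norm_num

lemma R_gt (N : ℕ) : ∀ m, N < m → R N m = 0 := by
  intro m hm
  induction m with
  | zero => omega
  | succ m ih =>
    rw [R_succ]
    rcases Nat.lt_or_ge N m with h | h
    · rw [ih h, zero_mul]
    · have : N = m := by omega
      subst this
      simp

lemma R_step (K m : ℕ) : R K m = R (K + 1) m * (1 - (m : ℝ) ^ 2 / ((K : ℝ) + 1) ^ 2) := by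
  induction m with
  | zero => simp [R]
  | succ m ih =>
    rw [R_succ, R_succ, ih]
    have h1 : (K : ℝ) + m + 1 ≠ 0 := by positivity
    have h2 : (K : ℝ) + 1 + m + 1 ≠ 0 := by positivity
    have h3 : (K : ℝ) + 1 ≠ 0 := by positivity
    push_cast
    field_simp
    ring

lemma R_lim (m : ℕ) : Tendsto (fun N => R N m) atTop (𝓝 1) := by
  induction m with
  | zero => simp [R]
  | succ m ih =>
    simp only [R_succ]
    have h : Tendsto (fun N : ℕ => ((N : ℝ) - m) / ((N : ℝ) + m + 1)) atTop (𝓝 1) := by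
      have e : ∀ N : ℕ, ((N : ℝ) - m) / ((N : ℝ) + m + 1)
          = 1 - (2 * m + 1) * (1 / ((N : ℝ) + ((m : ℝ) + 1))) := by
        intro N
        have : (N : ℝ) + m + 1 ≠ 0 := by positivity
        have h2 : (N : ℝ) + ((m : ℝ) + 1) ≠ 0 := by positivity
        field_simp
        ring
      simp only [e]
      have h2 : Tendsto (fun N : ℕ => 1 / ((N : ℝ) + ((m : ℝ) + 1))) atTop (𝓝 0) := by
        refine Tendsto.div_atTop tendsto_const_nhds ?_
        exact tendsto_atTop_add_const_right _ _ tendsto_natCast_atTop_atTop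
      simpa using (h2.const_mul (2 * (m : ℝ) + 1)).const_sub 1
    simpa using ih.mul h

/-- The signed weight. -/
noncomputable def u (n m : ℕ) : ℝ := (-1) ^ m * R n m

/-- The weight obtained by summation. -/
noncomputable def Q (n m : ℕ) : ℝ := (-1) ^ m * ((m : ℝ) / n) * R n m

lemma Q_step {n : ℕ} (hn : 1 ≤ n) (m : ℕ) : Q n m - Q n (m + 1) = u n m + u n (m + 1) := by
  unfold Q u
  rw [R_succ]
  have h1 : (n : ℝ) ≠ 0 := by
    have : (0 : ℝ) < n := by exact_mod_cast hn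
    exact this.ne'
  have h2 : (n : ℝ) + m + 1 ≠ 0 := by positivity
  rw [pow_succ]
  push_cast
  field_simp
  ring

lemma abel {n : ℕ} (hn : 1 ≤ n) (Z : ℕ → ℝ) (hZ : Z 0 = 0) (k : ℕ) :
    ∑ m ∈ Ioc 0 k, u n m * (Z m + Z (m - 1))
      = (∑ m ∈ Ioc 0 k, Q n m * (Z m - Z (m - 1))) - (Q n (k + 1) + u n (k + 1)) * Z k := by
  induction k with
  | zero => simp [hZ]
  | succ k ih =>
    rw [sum_Ioc_succ_top (Nat.zero_le k), sum_Ioc_succ_top (Nat.zero_le k), ih]
    have h := Q_step hn (k + 1)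
    have h2 : Q n (k + 1 + 1) + u n (k + 1 + 1) = Q n (k + 1) - u n (k + 1) := by linarith
    rw [h2]
    simp only [Nat.add_sub_cancel]
    ring

lemma abel_full {n : ℕ} (hn : 1 ≤ n) (Z : ℕ → ℝ) (hZ : Z 0 = 0) :
    ∑ m ∈ Ioc 0 n, u n m * (Z m + Z (m - 1))
      = ∑ m ∈ Ioc 0 n, Q n m * (Z m - Z (m - 1)) := by
  rw [abel hn Z hZ n]
  have : R n (n + 1) = 0 := R_gt n _ (Nat.lt_succ_self n)
  simp [Q, u, this]

/-- The truncated sharp sums of `(2, 1, ..., 1)`, by recursion on the number of ones. -/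
noncomputable def A : ℕ → ℕ → ℝ
  | 0, m => ∑ l ∈ Ioc 0 m, 2 / (l : ℝ) ^ 2
  | r + 1, m => ∑ l ∈ Ioc 0 m, (A r l + A r (l - 1)) / l

lemma A_zero (r : ℕ) : A r 0 = 0 := by cases r <;> simp [A]

lemma A_diff0 {m : ℕ} (hm : 1 ≤ m) : A 0 m - A 0 (m - 1) = 2 / (m : ℝ) ^ 2 := by
  obtain ⟨k, rfl⟩ : ∃ k, m = k + 1 := ⟨m - 1, by omega⟩
  simp only [A, Nat.add_sub_cancel]
  rw [sum_Ioc_succ_top (Nat.zero_le k)]
  ring

lemma A_diff {r m : ℕ} (hm : 1 ≤ m) :
    A (r + 1) m - A (r + 1) (m - 1) = (A r m + A r (m - 1)) / m := by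
  obtain ⟨k, rfl⟩ : ∃ k, m = k + 1 := ⟨m - 1, by omega⟩
  simp only [A, Nat.add_sub_cancel]
  rw [sum_Ioc_succ_top (Nat.zero_le k)]
  simp only [Nat.add_sub_cancel]
  ring

/-- The averages of the sequences `A r`. -/
noncomputable def E (n r : ℕ) : ℝ := ∑ m ∈ Ioc 0 n, u n m * (A r m + A r (m - 1))

lemma E_succ {n : ℕ} (hn : 1 ≤ n) (r : ℕ) : E n (r + 1) = E n r / n := by
  unfold E
  rw [abel_full hn _ (A_zero _), sum_div]
  refine sum_congr rfl fun m hm => ?_
  rw [mem_Ioc] at hm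
  rw [A_diff hm.1]
  have h1 : (n : ℝ) ≠ 0 := by
    have : (0 : ℝ) < n := by exact_mod_cast hn
    exact this.ne'
  have h2 : (m : ℝ) ≠ 0 := by
    have : (0 : ℝ) < m := by exact_mod_cast hm.1
    exact this.ne'
  unfold Q u
  field_simp

/-- Harmonic numbers. -/
noncomputable def H (n : ℕ) : ℝ := ∑ i ∈ Ioc 0 n, 1 / (i : ℝ)

lemma H_succ (n : ℕ) : H (n + 1) = H n + 1 / ((n : ℝ) + 1) := by
  unfold H
  rw [sum_Ioc_succ_top (Nat.zero_le n)]
  push_cast
  rfl

lemma H_zero : H 0 = 0 := by simp [H]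

/-- A telescoping sum. -/
lemma tele (K : ℕ) : ∑ i ∈ Ioc 0 (K + 1), (-1 : ℝ) ^ i * i * R (K + 1) i
    = -((K : ℝ) + 1) / (2 * (2 * K + 1)) := by
  have hW : ∀ k : ℕ, ∑ i ∈ Ioc 0 k, (-1 : ℝ) ^ i * i * R (K + 1) i
      = -((K : ℝ) + 1) / (2 * (2 * K + 1))
        - (-1) ^ (k + 1) * ((K : ℝ) + 1 + (k + 1)) * (2 * (k + 1) - 1) / (2 * (2 * K + 1))
          * R (K + 1) (k + 1) := by
    intro k
    induction k with
    | zero =>
      have h1 : (2 : ℝ) * K + 1 ≠ 0 := by positivity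
      have h2 : (K : ℝ) + 1 + 1 ≠ 0 := by positivity
      simp only [Ioc_self, sum_empty, R]
      push_cast
      simp only [add_zero]
      field_simp
      ring
    | succ k ih =>
      rw [sum_Ioc_succ_top (Nat.zero_le k), ih, R_succ (K + 1) (k + 1)]
      have h1 : (2 : ℝ) * K + 1 ≠ 0 := by positivity
      have h2 : (K : ℝ) + 1 + (k + 1) + 1 ≠ 0 := by positivity
      rw [pow_succ (-1 : ℝ) (k + 1)]
      push_cast
      field_simp
      ring
  rw [hW (K + 1), R_gt (K + 1) (K + 1 + 1) (Nat.lt_succ_self _)]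
  ring

lemma sum_alt (n : ℕ) : ∑ i ∈ Ioc 0 n, (-1 : ℝ) ^ i * R n i / i = -(H (2 * n) - H n) := by
  induction n with
  | zero => simp [H]
  | succ K ih =>
    have h1 : ∑ i ∈ Ioc 0 K, (-1 : ℝ) ^ i * R K i / i
        = ∑ i ∈ Ioc 0 (K + 1), (-1 : ℝ) ^ i * R K i / i := by
      rw [sum_Ioc_succ_top (Nat.zero_le K), R_gt K (K + 1) (Nat.lt_succ_self _)]
      simp
    have h2 : ∑ i ∈ Ioc 0 (K + 1), (-1 : ℝ) ^ i * R K i / i
        = (∑ i ∈ Ioc 0 (K + 1), (-1 : ℝ) ^ i * R (K + 1) i / i)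
          - (∑ i ∈ Ioc 0 (K + 1), (-1 : ℝ) ^ i * i * R (K + 1) i) / ((K : ℝ) + 1) ^ 2 := by
      rw [sum_div, ← sum_sub_distrib]
      refine sum_congr rfl fun i hi => ?_
      rw [mem_Ioc] at hi
      have h2 : (i : ℝ) ≠ 0 := by
        have : (0 : ℝ) < i := by exact_mod_cast hi.1
        exact this.ne'
      rw [R_step K i]
      field_simp
    rw [tele] at h2
    rw [h1, h2] at ih
    have h3 : 2 * (K + 1) = 2 * K + 1 + 1 := by ring
    rw [h3, H_succ, H_succ, H_succ]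
    have e1 : (2 : ℝ) * K + 1 ≠ 0 := by positivity
    have e2 : (2 : ℝ) * K + 1 + 1 ≠ 0 := by positivity
    have e3 : (K : ℝ) + 1 ≠ 0 := by positivity
    have e4 : -((K : ℝ) + 1) / (2 * (2 * K + 1)) / ((K : ℝ) + 1) ^ 2
        = -(1 / (2 * (K : ℝ) + 1) + 1 / (2 * (K : ℝ) + 1 + 1) - 1 / ((K : ℝ) + 1)) := by
      field_simp
      ring
    rw [e4] at ih
    push_cast
    linarith

lemma E_zero {n : ℕ} (hn : 1 ≤ n) : E n 0 = -2 * (H (2 * n) - H n) / n := by
  unfold E
  rw [abel_full hn _ (A_zero _)]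
  have h : ∑ m ∈ Ioc 0 n, Q n m * (A 0 m - A 0 (m - 1))
      = 2 / (n : ℝ) * ∑ m ∈ Ioc 0 n, (-1 : ℝ) ^ m * R n m / m := by
    rw [mul_sum]
    refine sum_congr rfl fun m hm => ?_
    rw [mem_Ioc] at hm
    rw [A_diff0 hm.1]
    have h1 : (n : ℝ) ≠ 0 := by
      have : (0 : ℝ) < n := by exact_mod_cast hn
      exact this.ne'
    have h2 : (m : ℝ) ≠ 0 := by
      have : (0 : ℝ) < m := by exact_mod_cast hm.1
      exact this.ne'
    unfold Q
    field_simp
  rw [h, sum_alt]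
  ring

lemma E_eq {n : ℕ} (hn : 1 ≤ n) (r : ℕ) :
    E n r = -2 * (H (2 * n) - H n) / (n : ℝ) ^ (r + 1) := by
  induction r with
  | zero => rw [E_zero hn, zero_add, pow_one]
  | succ r ih =>
    rw [E_succ hn, ih, pow_succ (n : ℝ) (r + 1), div_div]

/-- The terms of the sharp sum. -/
noncomputable def g (r m : ℕ) : ℝ := (-1) ^ m * (A r m + A r (m - 1)) / (m : ℝ) ^ 2

lemma g_zero (r : ℕ) : g r 0 = 0 := by simp [g]

/-- The finite transport. -/
lemma transport (r N : ℕ) : ∑ m ∈ Ioc 0 N, R N m * g r m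
    = -2 * ∑ n ∈ Ioc 0 N, (H (2 * n) - H n) / (n : ℝ) ^ (r + 3) := by
  induction N with
  | zero => simp
  | succ K ih =>
    have h1 : ∑ m ∈ Ioc 0 K, R K m * g r m = ∑ m ∈ Ioc 0 (K + 1), R K m * g r m := by
      rw [sum_Ioc_succ_top (Nat.zero_le K), R_gt K (K + 1) (Nat.lt_succ_self _)]
      simp
    have h2 : ∑ m ∈ Ioc 0 (K + 1), R K m * g r m
        = (∑ m ∈ Ioc 0 (K + 1), R (K + 1) m * g r m) - E (K + 1) r / ((K : ℝ) + 1) ^ 2 := by
      unfold E
      rw [sum_div, ← sum_sub_distrib]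
      refine sum_congr rfl fun m hm => ?_
      rw [mem_Ioc] at hm
      have h2 : (m : ℝ) ≠ 0 := by
        have : (0 : ℝ) < m := by exact_mod_cast hm.1
        exact this.ne'
      rw [R_step K m]
      unfold g u
      field_simp
    rw [h1, h2, E_eq (by omega)] at ih
    rw [sum_Ioc_succ_top (Nat.zero_le K) (fun n => (H (2 * n) - H n) / (n : ℝ) ^ (r + 3)),
      mul_add, ← ih]
    have e3 : (K : ℝ) + 1 ≠ 0 := by positivity
    push_cast
    field_simp
    ring

lemma A_nonneg (r m : ℕ) : 0 ≤ A r m := by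
  induction r generalizing m with
  | zero => exact sum_nonneg fun l _ => by positivity
  | succ r ih =>
    refine sum_nonneg fun l _ => ?_
    have := ih l
    have := ih (l - 1)
    positivity

lemma A_bound (r m : ℕ) : A r m ≤ 4 ^ (r + 1) * √(m : ℝ) := by
  induction r generalizing m with
  | zero =>
    calc A 0 m = ∑ l ∈ Ioc 0 m, 2 / (l : ℝ) ^ 2 := rfl
      _ ≤ ∑ l ∈ Ioc 0 m, 2 * (1 / √(l : ℝ)) := by
          refine sum_le_sum fun l hl => ?_
          rw [mem_Ioc] at hl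
          have h1 : (1 : ℝ) ≤ l := by exact_mod_cast hl.1
          have h2 : √(l : ℝ) ≤ (l : ℝ) ^ 2 := by
            rw [Real.sqrt_le_left (by positivity)]
            nlinarith [pow_le_pow_right₀ h1 (show 1 ≤ 4 by norm_num)]
          have h3 : 0 < √(l : ℝ) := Real.sqrt_pos.mpr (by linarith)
          rw [div_eq_mul_one_div]
          exact mul_le_mul_of_nonneg_left (one_div_le_one_div_of_le h3 h2) (by norm_num)
      _ = 2 * ∑ l ∈ Ioc 0 m, 1 / √(l : ℝ) := by rw [mul_sum]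
      _ ≤ 4 ^ (0 + 1) * √(m : ℝ) := by
          have := sum_inv_sqrt m
          rw [zero_add, pow_one]
          linarith
  | succ r ih =>
    calc A (r + 1) m = ∑ l ∈ Ioc 0 m, (A r l + A r (l - 1)) / l := rfl
      _ ≤ ∑ l ∈ Ioc 0 m, (2 * 4 ^ (r + 1)) * (1 / √(l : ℝ)) := by
          refine sum_le_sum fun l hl => ?_
          rw [mem_Ioc] at hl
          have h1 : (0 : ℝ) < l := by exact_mod_cast hl.1
          have h2 : √((l - 1 : ℕ) : ℝ) ≤ √(l : ℝ) :=
            Real.sqrt_le_sqrt (by exact_mod_cast Nat.sub_le l 1)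
          have h3 : 0 < √(l : ℝ) := Real.sqrt_pos.mpr h1
          have h4 : √(l : ℝ) * √(l : ℝ) = l := Real.mul_self_sqrt h1.le
          have h5 : A r l + A r (l - 1) ≤ 2 * 4 ^ (r + 1) * √(l : ℝ) := by
            have e1 := ih l
            have e2 := ih (l - 1)
            have e3 : (0 : ℝ) < 4 ^ (r + 1) := by positivity
            nlinarith [mul_le_mul_of_nonneg_left h2 e3.le]
          rw [div_le_iff₀ h1]
          calc A r l + A r (l - 1) ≤ 2 * 4 ^ (r + 1) * √(l : ℝ) := h5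
            _ = 2 * 4 ^ (r + 1) * (1 / √(l : ℝ)) * (√(l : ℝ) * √(l : ℝ)) := by
                field_simp
            _ = 2 * 4 ^ (r + 1) * (1 / √(l : ℝ)) * l := by rw [h4]
      _ = (2 * 4 ^ (r + 1)) * ∑ l ∈ Ioc 0 m, 1 / √(l : ℝ) := by rw [mul_sum]
      _ ≤ (2 * 4 ^ (r + 1)) * (2 * √(m : ℝ)) :=
          mul_le_mul_of_nonneg_left (sum_inv_sqrt m) (by positivity)
      _ = 4 ^ (r + 1 + 1) * √(m : ℝ) := by ring

lemma g_bound (r m : ℕ) : |g r m| ≤ 2 * 4 ^ (r + 1) * (1 / (m : ℝ) ^ (3 / 2 : ℝ)) := by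
  rcases Nat.eq_zero_or_pos m with h | h
  · subst h
    rw [g_zero, abs_zero]
    positivity
  · rw [← pow_sqrt m h]
    have h0 := A_nonneg r m
    have h1 := A_nonneg r (m - 1)
    have e1 := A_bound r m
    have e2 := A_bound r (m - 1)
    have h2 : √((m - 1 : ℕ) : ℝ) ≤ √(m : ℝ) :=
      Real.sqrt_le_sqrt (by exact_mod_cast Nat.sub_le m 1)
    have e3 : (0 : ℝ) < 4 ^ (r + 1) := by positivity
    have hm : (0 : ℝ) < m := by exact_mod_cast h
    unfold g
    rw [abs_div, abs_mul, abs_pow, abs_neg, abs_one, one_pow, one_mul, abs_pow, Nat.abs_cast,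
      abs_of_nonneg (by linarith), div_le_iff₀ (by positivity)]
    have : 2 * (4 : ℝ) ^ (r + 1) * (1 / (m : ℝ) ^ 2 * √(m : ℝ)) * (m : ℝ) ^ 2
        = 2 * 4 ^ (r + 1) * √(m : ℝ) := by
      field_simp
    rw [this]
    nlinarith [mul_le_mul_of_nonneg_left h2 e3.le]

lemma g_summable (r : ℕ) : Summable (g r) :=
  Summable.of_norm_bounded (summable_rpow32.mul_left _) fun m => by
    rw [Real.norm_eq_abs]
    exact g_bound r m

/-- The value of the alternating series as a limit of the transported sums. -/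
lemma tendsto_transport (r : ℕ) :
    Tendsto (fun N : ℕ => ∑ m ∈ Ioc 0 N, R N m * g r m) atTop (𝓝 (∑' m, g r m)) := by
  have h1 : Tendsto (fun N : ℕ => ∑' m, R N m * g r m) atTop (𝓝 (∑' m, g r m)) := by
    refine tendsto_tsum_of_dominated_convergence
      (bound := fun m => 2 * 4 ^ (r + 1) * (1 / (m : ℝ) ^ (3 / 2 : ℝ)))
      (summable_rpow32.mul_left _) ?_ ?_
    · intro m
      simpa using (R_lim m).mul_const (g r m)
    · refine Eventually.of_forall fun N m => ?_
      rw [Real.norm_eq_abs, abs_mul]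
      calc |R N m| * |g r m| ≤ 1 * |g r m| :=
            mul_le_mul_of_nonneg_right (R_abs_le N m) (abs_nonneg _)
        _ ≤ _ := by rw [one_mul]; exact g_bound r m
  refine h1.congr fun N => ?_
  rw [tsum_eq_sum (s := Ioc 0 N)]
  intro m hm
  rw [mem_Ioc, not_and_or] at hm
  rcases hm with h | h
  · have : m = 0 := by omega
    subst this
    rw [g_zero, mul_zero]
  · rw [R_gt N m (by omega), zero_mul]

lemma H_diff_nonneg (n : ℕ) : 0 ≤ H (2 * n) - H n := by
  unfold H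
  rw [sub_nonneg]
  refine sum_le_sum_of_subset_of_nonneg ?_ fun i _ _ => by positivity
  intro i
  simp only [mem_Ioc]
  omega

lemma H_diff_succ (n : ℕ) : H (2 * (n + 1)) - H (n + 1)
    = H (2 * n) - H n + 1 / ((2 * (n : ℝ) + 1) * (2 * n + 2)) := by
  have h3 : 2 * (n + 1) = 2 * n + 1 + 1 := by ring
  rw [h3, H_succ, H_succ, H_succ]
  have e1 : (2 : ℝ) * n + 1 ≠ 0 := by positivity
  have e2 : (2 : ℝ) * n + 2 ≠ 0 := by positivity
  have e3 : (n : ℝ) + 1 ≠ 0 := by positivity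
  push_cast
  have e4 : 1 / (2 * (n : ℝ) + 1) + 1 / (2 * (n : ℝ) + 1 + 1) - 1 / ((n : ℝ) + 1)
      = 1 / ((2 * (n : ℝ) + 1) * (2 * n + 2)) := by
    have e5 : (2 : ℝ) * n + 1 + 1 ≠ 0 := by positivity
    field_simp
    ring
  linarith

lemma H_diff_ge {n : ℕ} (hn : 1 ≤ n) : 1 / 2 ≤ H (2 * n) - H n := by
  induction n, hn using Nat.le_induction with
  | base =>
    have := H_diff_succ 0
    norm_num [H_zero] at this ⊢
    rw [this]
  | succ n _ ih =>
    rw [H_diff_succ]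
    have : 0 ≤ 1 / ((2 * (n : ℝ) + 1) * (2 * n + 2)) := by positivity
    linarith

lemma H_diff_le (n : ℕ) : H (2 * n) - H n ≤ 1 := by
  have h : H (2 * n) - H n = ∑ i ∈ Ioc n (2 * n), 1 / (i : ℝ) := by
    unfold H
    rw [sub_eq_iff_eq_add, ← sum_union]
    · refine sum_congr ?_ fun _ _ => rfl
      ext i
      simp only [mem_Ioc, mem_union]
      omega
    · rw [disjoint_left]
      intro i
      simp only [mem_Ioc]
      omega
  rw [h]
  rcases Nat.eq_zero_or_pos n with h0 | h0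
  · subst h0
    simp
  · have hn : (0 : ℝ) < n := by exact_mod_cast h0
    calc ∑ i ∈ Ioc n (2 * n), 1 / (i : ℝ) ≤ ∑ _i ∈ Ioc n (2 * n), 1 / (n : ℝ) := by
          refine sum_le_sum fun i hi => ?_
          rw [mem_Ioc] at hi
          exact one_div_le_one_div_of_le hn (by exact_mod_cast hi.1.le)
      _ = 1 := by
          rw [sum_const, Nat.card_Ioc]
          have : 2 * n - n = n := by omega
          rw [this, nsmul_eq_mul]
          field_simp

/-- The series on the other side. -/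
noncomputable def Lser (d : ℕ) : ℝ := ∑' n : ℕ, (H (2 * n) - H n) / (n : ℝ) ^ d

lemma Lser_summable {d : ℕ} (hd : 2 ≤ d) :
    Summable (fun n : ℕ => (H (2 * n) - H n) / (n : ℝ) ^ d) := by
  refine Summable.of_norm_bounded (Real.summable_one_div_nat_pow.mpr (by omega : 1 < d))
    fun n => ?_
  rw [Real.norm_eq_abs, abs_div, abs_of_nonneg (H_diff_nonneg n), abs_pow, Nat.abs_cast]
  exact div_le_div_of_nonneg_right (H_diff_le n) (by positivity)

lemma tendsto_Lser {d : ℕ} (hd : 2 ≤ d) :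
    Tendsto (fun N : ℕ => ∑ n ∈ Ioc 0 N, (H (2 * n) - H n) / (n : ℝ) ^ d) atTop
      (𝓝 (Lser d)) :=
  tendsto_Ioc (Lser_summable hd) (by simp [H_zero])

/-- The string `(2, 1, ..., 1)` with `r` ones. -/
def str (r : ℕ) : List Entry := (2, false) :: List.replicate r (1, false)

lemma str_succ (r : ℕ) : str (r + 1) = str r ++ [(1, false)] := by
  simp [str, List.replicate_succ']

lemma wt_plain (k n : ℕ) : wt (k, false) n = 1 / (n : ℝ) ^ k := by simp [wt, sgn]

lemma wt_bar (k n : ℕ) : wt (k, true) n = (-1) ^ n / (n : ℝ) ^ k := by simp [wt, sgn]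

lemma shT_str (r m : ℕ) : shT (str r) 0 m = A r m := by
  induction r generalizing m with
  | zero =>
    simp only [str, List.replicate_zero, shT_single, wt_plain, A, mul_sum]
    refine sum_congr rfl fun l _ => ?_
    ring
  | succ r ih =>
    rw [str_succ, shT_append]
    simp only [ih, wt_plain, A]
    refine sum_congr rfl fun l _ => ?_
    rw [pow_one]
    ring

lemma shT_bar (r M : ℕ) : shT (str r ++ [(2, true)]) 0 M = ∑ m ∈ Ioc 0 M, g r m := by
  rw [shT_append]
  refine sum_congr rfl fun m _ => ?_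
  rw [shT_str, shT_str, wt_bar]
  unfold g
  ring

lemma adm_str (r : ℕ) : Adm (str r ++ [(2, true)]) := by
  refine ⟨?_, str r, (2, true), rfl, le_refl _⟩
  intro x hx
  simp only [str, List.cons_append, List.mem_cons, List.mem_append, List.mem_replicate,
    List.not_mem_nil, or_false] at hx
  rcases hx with h | h | h
  · subst h; norm_num
  · rw [h.2]
  · subst h; norm_num

/-- The value of the sharp sum of `(2, 1, ..., 1, bar 2)`. -/
theorem sharp_value (r : ℕ) : sharp (str r ++ [(2, true)]) = -2 * Lser (r + 3) := by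
  have h1 : Tendsto (fun M : ℕ => shT (str r ++ [(2, true)]) 0 M) atTop
      (𝓝 (sharp (str r ++ [(2, true)]))) := tendsto_sharp (adm_str r)
  have h2 : Tendsto (fun M : ℕ => shT (str r ++ [(2, true)]) 0 M) atTop
      (𝓝 (∑' m, g r m)) := by
    simp only [shT_bar]
    exact tendsto_Ioc (g_summable r) (g_zero r)
  have h3 := tendsto_nhds_unique h1 h2
  have h4 := tendsto_transport r
  have h5 : Tendsto (fun N : ℕ => ∑ m ∈ Ioc 0 N, R N m * g r m) atTop
      (𝓝 (-2 * Lser (r + 3))) := by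
    simp only [transport]
    exact (tendsto_Lser (by omega)).const_mul _
  rw [h3, tendsto_nhds_unique h4 h5]

end Q238.SH
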